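import Pool.Agent.Helper97.Speed.Defs

/-!
# Counting triangulated polygons at the critical parameter `2/27` (task T1 for MP_f07f0f_pr)
-/

namespace Pool.Agent.Helper97.Speed

open MeasureTheory Filter Topology ENNReal Finset

namespace Counting

/-- `b n = C_n / (n + 2)`, written as `(4 C_n - C_{n+1}) / 6`. -/
noncomputable def b (n : ℕ) : ℝ := (4 * catalan n - catalan (n + 1)) / 6

lemma catalan_rec (n : ℕ) : ((n : ℝ) + 2) * catalan (n + 1) = (4 * n + 2) * catalan n := by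
  have h1 := succ_mul_catalan_eq_centralBinom n
  have h2 := succ_mul_catalan_eq_centralBinom (n + 1)
  have h3 := Nat.succ_mul_centralBinom_succ n
  rw [← h1, ← h2] at h3
  have h4 : ((n : ℝ) + 1) * (((n : ℝ) + 2) * catalan (n + 1)) =
      2 * (2 * n + 1) * (((n : ℝ) + 1) * catalan n) := by
    exact_mod_cast h3
  have h5 : (n : ℝ) + 1 ≠ 0 := by positivity
  apply mul_left_cancel₀ h5
  linarith [h4]

lemma b_nonneg (n : ℕ) : 0 ≤ b n := by
  have h := catalan_rec n
  have hn : (0 : ℝ) < (n : ℝ) + 2 := by positivity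
  have hc : (0 : ℝ) ≤ catalan n := by positivity
  have : (catalan (n + 1) : ℝ) ≤ 4 * catalan n := by
    by_contra hlt
    push Not at hlt
    nlinarith
  unfold b
  linarith

lemma catalan_le (n : ℕ) : (catalan n : ℝ) ≤ 4 ^ n := by
  have h1 := succ_mul_catalan_eq_centralBinom n
  have h2 : Nat.centralBinom n ≤ 4 ^ n := by
    rw [Nat.centralBinom_eq_two_mul_choose]
    calc (2 * n).choose n ≤ 2 ^ (2 * n) := Nat.choose_le_two_pow _ _
      _ = 4 ^ n := by rw [pow_mul]; norm_num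
  have h3 : catalan n ≤ 4 ^ n := by
    calc catalan n ≤ (n + 1) * catalan n := Nat.le_mul_of_pos_left _ (Nat.succ_pos n)
      _ = Nat.centralBinom n := h1
      _ ≤ _ := h2
  exact_mod_cast h3

lemma b_le (n : ℕ) : b n ≤ 4 ^ n := by
  have h1 := catalan_le n
  have h2 : (0 : ℝ) ≤ catalan (n + 1) := by positivity
  have h3 : (0 : ℝ) ≤ 4 ^ n := by positivity
  unfold b
  linarith

lemma catalan_conv (n : ℕ) : ∑ ij ∈ antidiagonal n, (catalan ij.1 : ℝ) * catalan ij.2 =
    catalan (n + 1) := by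
  rw [catalan_succ']
  push_cast
  rfl

lemma conv1 (m : ℕ) : ∑ ij ∈ antidiagonal m, (catalan (ij.1 + 1) : ℝ) * catalan ij.2 =
    catalan (m + 2) - catalan (m + 1) := by
  have h := catalan_conv (m + 1)
  rw [Finset.Nat.antidiagonal_succ, Finset.sum_cons, Finset.sum_map] at h
  simp only [Function.Embedding.prodMap, Function.Embedding.coeFn_mk, Prod.map,
    Function.Embedding.refl_apply, catalan_zero, Nat.cast_one, one_mul, Nat.succ_eq_add_one] at h
  rw [← h]; ring

lemma conv2 (m : ℕ) : ∑ ij ∈ antidiagonal m, (catalan ij.1 : ℝ) * catalan (ij.2 + 1) =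
    catalan (m + 2) - catalan (m + 1) := by
  rw [← conv1 m, ← Finset.Nat.sum_antidiagonal_swap]
  exact Finset.sum_congr rfl fun x _ => by simp [mul_comm]

lemma conv3 (m : ℕ) : ∑ ij ∈ antidiagonal m, (catalan (ij.1 + 1) : ℝ) * catalan (ij.2 + 1) =
    catalan (m + 3) - 2 * catalan (m + 2) := by
  have h := conv1 (m + 1)
  rw [Finset.Nat.antidiagonal_succ', Finset.sum_cons, Finset.sum_map] at h
  simp only [Function.Embedding.prodMap, Function.Embedding.coeFn_mk, Prod.map,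
    Function.Embedding.refl_apply, catalan_zero, Nat.cast_one, mul_one, Nat.succ_eq_add_one] at h
  have e : (catalan (m + 1 + 2) : ℝ) = catalan (m + 3) := rfl
  have e2 : (catalan (m + 1 + 1) : ℝ) = catalan (m + 2) := rfl
  rw [e, e2] at h
  linarith

lemma b_conv (m : ℕ) : ∑ ij ∈ antidiagonal m, b ij.1 * b ij.2 = b (m + 1) - b (m + 2) / 6 := by
  have h : ∀ ij : ℕ × ℕ, b ij.1 * b ij.2 =
      (16 * ((catalan ij.1 : ℝ) * catalan ij.2) - 4 * ((catalan (ij.1 + 1) : ℝ) * catalan ij.2)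
        - 4 * ((catalan ij.1 : ℝ) * catalan (ij.2 + 1))
        + (catalan (ij.1 + 1) : ℝ) * catalan (ij.2 + 1)) / 36 := by
    intro ij; unfold b; ring
  rw [Finset.sum_congr rfl (fun ij _ => h ij), ← Finset.sum_div, Finset.sum_add_distrib,
    Finset.sum_sub_distrib, Finset.sum_sub_distrib, ← Finset.mul_sum, ← Finset.mul_sum,
    ← Finset.mul_sum, catalan_conv, conv1, conv2, conv3]
  unfold b
  ring

/-- `Y m` is the critical partition function of polygons with perimeter `m + 2`. -/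
noncomputable def Y (m : ℕ) : ℝ := (9 / 4) ^ (m + 1) * b m

lemma Y_nonneg (m : ℕ) : 0 ≤ Y m := mul_nonneg (by positivity) (b_nonneg m)

lemma Y_zero : Y 0 = 1 + 2 / 27 * Y 1 := by
  unfold Y b
  simp [catalan_zero, catalan_one, catalan_two]
  norm_num

lemma Y_succ (m : ℕ) : Y (m + 1) = 2 / 27 * Y (m + 2) + ∑ ij ∈ antidiagonal m, Y ij.1 * Y ij.2 := by
  have h : ∑ ij ∈ antidiagonal m, Y ij.1 * Y ij.2 =
      (9 / 4) ^ (m + 2) * ∑ ij ∈ antidiagonal m, b ij.1 * b ij.2 := by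
    rw [Finset.mul_sum]
    refine Finset.sum_congr rfl fun ij hij => ?_
    rw [HasAntidiagonal.mem_antidiagonal] at hij
    unfold Y
    rw [← hij]
    ring
  rw [h, b_conv]
  unfold Y
  ring

lemma Y_le (m : ℕ) : Y m ≤ 9 ^ (m + 2) := by
  have h := b_le m
  have h0 := b_nonneg m
  unfold Y
  calc (9 / 4 : ℝ) ^ (m + 1) * b m ≤ (9 / 4 : ℝ) ^ (m + 1) * 4 ^ m := by gcongr
    _ = 9 ^ (m + 1) / 4 := by rw [div_pow, pow_succ (4 : ℝ) m]; field_simp
    _ ≤ 9 ^ (m + 2) := by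
      rw [pow_succ (9 : ℝ) (m + 1)]
      have : (0 : ℝ) < 9 ^ (m + 1) := by positivity
      linarith

end Counting

namespace Disc

/-- Depth of a code. -/
def depth : Disc → ℕ
  | edge => 0
  | inner Q => Q.depth + 1
  | split Q₁ Q₂ => max Q₁.depth Q₂.depth + 1

lemma two_le_per : ∀ Q : Disc, Q.WF → 2 ≤ Q.per
  | edge, _ => le_refl 2
  | inner Q, h => by
    have := h.1
    simp only [per]; omega
  | split Q₁ Q₂, h => by
    have h1 := two_le_per Q₁ h.1
    have h2 := two_le_per Q₂ h.2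
    simp only [per]; omega

/-- `Disc` as a sum type. -/
def equivSum : Unit ⊕ (Disc ⊕ (Disc × Disc)) ≃ Disc where
  toFun
    | .inl _ => edge
    | .inr (.inl Q) => inner Q
    | .inr (.inr (Q₁, Q₂)) => split Q₁ Q₂
  invFun
    | edge => .inl ()
    | inner Q => .inr (.inl Q)
    | split Q₁ Q₂ => .inr (.inr (Q₁, Q₂))
  left_inv := by rintro (_ | _ | ⟨_, _⟩) <;> rfl
  right_inv := by rintro (_ | _ | _) <;> rfl

lemma tsum_disc (f : Disc → ℝ≥0∞) :
    ∑' Q, f Q = f edge + (∑' Q, f (inner Q) + ∑' Q₁, ∑' Q₂, f (split Q₁ Q₂)) := by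
  rw [← equivSum.tsum_eq, ENNReal.summable.tsum_sum ENNReal.summable,
    ENNReal.summable.tsum_sum ENNReal.summable]
  rw [← ENNReal.tsum_prod (f := fun Q₁ Q₂ => f (split Q₁ Q₂))]
  simp [equivSum]

/-- Weight of a code, cut off at depth `n` and perimeter `m + 2`. -/
noncomputable def g (n m : ℕ) (Q : Disc) : ℝ≥0∞ := by
  classical
  exact if Q.WF ∧ Q.per = m + 2 ∧ Q.depth ≤ n then ENNReal.ofReal ((2 / 27 : ℝ) ^ Q.inn) else 0

lemma g_inner (n m : ℕ) (Q : Disc) :
    g (n + 1) m (inner Q) = ENNReal.ofReal (2 / 27) * g n (m + 1) Q := by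
  unfold g
  by_cases h : Q.WF ∧ Q.per = m + 1 + 2 ∧ Q.depth ≤ n
  · have h' : (inner Q).WF ∧ (inner Q).per = m + 2 ∧ (inner Q).depth ≤ n + 1 := by
      refine ⟨⟨by omega, h.1⟩, ?_, ?_⟩
      · simp only [per]; omega
      · simp only [depth]; omega
    rw [if_pos h, if_pos h', ← ENNReal.ofReal_mul (by norm_num)]
    congr 1
    simp only [inn]
    ring
  · have h' : ¬ ((inner Q).WF ∧ (inner Q).per = m + 2 ∧ (inner Q).depth ≤ n + 1) := by
      rintro ⟨h1, h2, h3⟩
      apply h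
      have h4 := h1.1
      simp only [per, depth] at h2 h3
      exact ⟨h1.2, by omega, by omega⟩
    rw [if_neg h, if_neg h', mul_zero]

lemma g_split_zero (n : ℕ) (Q₁ Q₂ : Disc) : g (n + 1) 0 (split Q₁ Q₂) = 0 := by
  unfold g
  rw [if_neg]
  rintro ⟨h1, h2, _⟩
  have h3 := two_le_per Q₁ h1.1
  have h4 := two_le_per Q₂ h1.2
  simp only [per] at h2
  omega

lemma g_split_succ (n m : ℕ) (Q₁ Q₂ : Disc) : g (n + 1) (m + 1) (split Q₁ Q₂) ≤
    ∑ ij ∈ antidiagonal m, g n ij.1 Q₁ * g n ij.2 Q₂ := by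
  by_cases h : (split Q₁ Q₂).WF ∧ (split Q₁ Q₂).per = m + 1 + 2 ∧ (split Q₁ Q₂).depth ≤ n + 1
  · obtain ⟨h1, h2, h3⟩ := h
    have h4 := two_le_per Q₁ h1.1
    have h5 := two_le_per Q₂ h1.2
    have hper := h2
    have hdep := h3
    simp only [per] at hper
    simp only [depth] at hdep
    have hmem : (Q₁.per - 2, Q₂.per - 2) ∈ antidiagonal m := by
      rw [HasAntidiagonal.mem_antidiagonal]; simp only; omega
    refine le_trans ?_ (Finset.single_le_sum (f := fun ij : ℕ × ℕ => g n ij.1 Q₁ * g n ij.2 Q₂)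
      (fun _ _ => zero_le) hmem)
    unfold g
    have e1 : Q₁.WF ∧ Q₁.per = Q₁.per - 2 + 2 ∧ Q₁.depth ≤ n := by
      refine ⟨h1.1, by omega, by omega⟩
    have e2 : Q₂.WF ∧ Q₂.per = Q₂.per - 2 + 2 ∧ Q₂.depth ≤ n := by
      refine ⟨h1.2, by omega, by omega⟩
    rw [if_pos ⟨h1, h2, h3⟩]
    simp only
    rw [if_pos e1, if_pos e2, ← ENNReal.ofReal_mul (by positivity), ← pow_add]
    rfl
  · unfold g
    rw [if_neg h]
    exact zero_le

open Counting in
lemma tsum_g_le (n : ℕ) : ∀ m, ∑' Q, g n m Q ≤ ENNReal.ofReal (Y m) := by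
  induction n with
  | zero =>
    intro m
    rw [tsum_disc]
    have h1 : ∀ Q, g 0 m (inner Q) = 0 := fun Q => by
      unfold g; rw [if_neg]; rintro ⟨_, _, h⟩; simp [depth] at h
    have h2 : ∀ Q₁ Q₂, g 0 m (split Q₁ Q₂) = 0 := fun Q₁ Q₂ => by
      unfold g; rw [if_neg]; rintro ⟨_, _, h⟩; simp [depth] at h
    simp only [h1, h2, tsum_zero, add_zero]
    unfold g
    split_ifs with h
    · have hm : m = 0 := by
        have := h.2.1; simp only [per] at this; omega
      subst hm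
      apply ENNReal.ofReal_le_ofReal
      rw [Y_zero]
      have := Y_nonneg 1
      simp only [inn, pow_zero]
      linarith
    · exact zero_le
  | succ n ih =>
    intro m
    rw [tsum_disc]
    simp only [g_inner]
    rw [ENNReal.tsum_mul_left]
    rcases m with _ | m
    · simp only [g_split_zero, tsum_zero, add_zero]
      have h1 : g (n + 1) 0 edge ≤ ENNReal.ofReal 1 := by
        unfold g
        split_ifs
        · simp [inn]
        · exact zero_le
      calc g (n + 1) 0 edge + ENNReal.ofReal (2 / 27) * ∑' Q, g n (0 + 1) Q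
          ≤ ENNReal.ofReal 1 + ENNReal.ofReal (2 / 27) * ENNReal.ofReal (Y 1) := by
            gcongr; exact ih 1
        _ = ENNReal.ofReal (Y 0) := by
            rw [← ENNReal.ofReal_mul (by norm_num), ← ENNReal.ofReal_add (by norm_num)
              (mul_nonneg (by norm_num) (Y_nonneg 1)), Y_zero]
    · have h1 : g (n + 1) (m + 1) edge = 0 := by
        unfold g
        rw [if_neg]
        rintro ⟨_, h, _⟩
        simp only [per] at h
        omega
      rw [h1, zero_add]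
      have h2 : ∑' Q₁, ∑' Q₂, g (n + 1) (m + 1) (split Q₁ Q₂) ≤
          ∑ ij ∈ antidiagonal m, ENNReal.ofReal (Y ij.1) * ENNReal.ofReal (Y ij.2) := by
        calc ∑' Q₁, ∑' Q₂, g (n + 1) (m + 1) (split Q₁ Q₂)
            ≤ ∑' Q₁, ∑' Q₂, ∑ ij ∈ antidiagonal m, g n ij.1 Q₁ * g n ij.2 Q₂ :=
              ENNReal.tsum_le_tsum fun Q₁ => ENNReal.tsum_le_tsum fun Q₂ => g_split_succ n m Q₁ Q₂
          _ = ∑ ij ∈ antidiagonal m, (∑' Q₁, g n ij.1 Q₁) * ∑' Q₂, g n ij.2 Q₂ := by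
              simp only [Summable.tsum_finsetSum (fun _ _ => ENNReal.summable),
                ENNReal.tsum_mul_left, ENNReal.tsum_mul_right]
          _ ≤ _ := Finset.sum_le_sum fun ij _ => mul_le_mul' (ih ij.1) (ih ij.2)
      calc ENNReal.ofReal (2 / 27) * ∑' Q, g n (m + 1 + 1) Q +
            ∑' Q₁, ∑' Q₂, g (n + 1) (m + 1) (split Q₁ Q₂)
          ≤ ENNReal.ofReal (2 / 27) * ENNReal.ofReal (Y (m + 2)) +
            ∑ ij ∈ antidiagonal m, ENNReal.ofReal (Y ij.1) * ENNReal.ofReal (Y ij.2) := by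
            gcongr; exact ih (m + 2)
        _ = ENNReal.ofReal (Y (m + 1)) := by
            rw [Y_succ m, ENNReal.ofReal_add (mul_nonneg (by norm_num) (Y_nonneg _))
              (Finset.sum_nonneg fun _ _ => mul_nonneg (Y_nonneg _) (Y_nonneg _)),
              ENNReal.ofReal_mul (by norm_num), ENNReal.ofReal_sum_of_nonneg
              (fun _ _ => mul_nonneg (Y_nonneg _) (Y_nonneg _))]
            congr 1
            exact Finset.sum_congr rfl fun ij _ => (ENNReal.ofReal_mul (Y_nonneg _)).symm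

end Disc

open Disc Counting in
theorem tsum_disc_le (p : ℕ) (hp : 2 ≤ p) :
    ∑' Q : {Q : Disc // Q.WF ∧ Q.per = p}, ENNReal.ofReal ((2 / 27 : ℝ) ^ Q.1.inn) ≤ 9 ^ p := by
  classical
  obtain ⟨m, rfl⟩ : ∃ m, p = m + 2 := ⟨p - 2, by omega⟩
  have hY : ENNReal.ofReal (Y m) ≤ 9 ^ (m + 2) := by
    calc ENNReal.ofReal (Y m) ≤ ENNReal.ofReal (9 ^ (m + 2)) := ENNReal.ofReal_le_ofReal (Y_le m)
      _ = 9 ^ (m + 2) := by
        rw [ENNReal.ofReal_pow (by norm_num)]; norm_num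
  refine le_trans ?_ hY
  have : ∑' Q : {Q : Disc // Q.WF ∧ Q.per = m + 2}, ENNReal.ofReal ((2 / 27 : ℝ) ^ Q.1.inn) =
      ∑' Q : Disc, Set.indicator {Q : Disc | Q.WF ∧ Q.per = m + 2}
        (fun Q => ENNReal.ofReal ((2 / 27 : ℝ) ^ Q.inn)) Q :=
    tsum_subtype {Q : Disc | Q.WF ∧ Q.per = m + 2}
      (fun Q => ENNReal.ofReal ((2 / 27 : ℝ) ^ Q.inn))
  rw [this]
  refine ENNReal.summable.tsum_le_of_sum_le fun s => ?_
  set n := s.sup depth with hn
  calc ∑ Q ∈ s, Set.indicator {Q : Disc | Q.WF ∧ Q.per = m + 2}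
        (fun Q => ENNReal.ofReal ((2 / 27 : ℝ) ^ Q.inn)) Q
      = ∑ Q ∈ s, g n m Q := by
        refine Finset.sum_congr rfl fun Q hQ => ?_
        have hd : Q.depth ≤ n := Finset.le_sup hQ
        unfold g
        rw [Set.indicator_apply]
        by_cases h : Q.WF ∧ Q.per = m + 2
        · rw [if_pos (show Q ∈ {Q : Disc | Q.WF ∧ Q.per = m + 2} from h),
            if_pos ⟨h.1, h.2, hd⟩]
        · rw [if_neg (show ¬ Q ∈ {Q : Disc | Q.WF ∧ Q.per = m + 2} from h),
            if_neg (fun h' => h ⟨h'.1, h'.2.1⟩)]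
    _ ≤ ∑' Q, g n m Q := ENNReal.sum_le_tsum s
    _ ≤ _ := tsum_g_le n m

end Pool.Agent.Helper97.Speed
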